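import Mathlib

/-!
# The half-chromatic number of the continuous complete graph (MP_4befb3_co)

Throughout `n ≥ 2` (for `n = 1` the space is a single point, which is not modelled here).
-/

namespace Pool.Agent.Results.MP_4befb3_co.HalfChromatic

/-- A point of `Γ(K_n)`, given as the point at distance `t` from `u` on the edge `uv`. (The vertex
`u` is represented by `(u,v,0)` and by `(v,u,1)` for every `v ≠ u`, and the point `(u,v,t)` is also
represented by `(v,u,1-t)`; all notions below only depend on the point, not on the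
representation.) -/
@[ext] structure Pt (n : ℕ) where
  u : Fin n
  v : Fin n
  ne : u ≠ v
  t : ℝ
  t0 : 0 ≤ t
  t1 : t ≤ 1

variable {n : ℕ}

/-- graph distance in `K_n` -/
noncomputable def dK (a b : Fin n) : ℝ := if a = b then 0 else 1

/-- distance from a point to a vertex -/
noncomputable def dV (p : Pt n) (w : Fin n) : ℝ := min (p.t + dK p.u w) (1 - p.t + dK p.v w)

/-- distance between two points of `Γ(K_n)`: along the common edge if there is one, and otherwise
through an endpoint of the edge of `q`. -/
noncomputable def dP (p q : Pt n) : ℝ :=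
  if p.u = q.u ∧ p.v = q.v then |p.t - q.t|
  else if p.u = q.v ∧ p.v = q.u then |p.t - (1 - q.t)|
  else min (dV p q.u + q.t) (dV p q.v + (1 - q.t))

/-- closed ball of radius `1/2` -/
def ball (p : Pt n) : Set (Pt n) := {q | dP p q ≤ 1 / 2}

/-- `Γ(K_n)` is `(1/2, c)`-colourable: some set of closed balls of radius `1/2` covers `Γ(K_n)`
and has a `c`-colouring in which distinct intersecting balls get different colours. -/
def Colourable (n c : ℕ) : Prop :=
  ∃ P : Set (Pt n), (∀ q : Pt n, ∃ p ∈ P, q ∈ ball p) ∧
    ∃ f : Set (Pt n) → Fin c, ∀ B ∈ ball '' P, ∀ B' ∈ ball '' P, B ≠ B' → (B ∩ B').Nonempty →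
      f B ≠ f B'

/-- the half-chromatic number -/
noncomputable def chi (n : ℕ) : ℕ := sInf {c | Colourable n c}

/-! ### Descriptions of the balls -/

/-- `q` is within distance `ρ` of the vertex `w`, on an edge at `w` -/
def near (w : Fin n) (ρ : ℝ) (q : Pt n) : Prop :=
  (q.u = w ∧ q.t ≤ ρ) ∨ (q.v = w ∧ 1 - q.t ≤ ρ)

/-- `q` is on the edge `xw`, at distance at most `τ` from `x` -/
def onE (x w : Fin n) (τ : ℝ) (q : Pt n) : Prop :=
  (q.u = x ∧ q.v = w ∧ q.t ≤ τ) ∨ (q.u = w ∧ q.v = x ∧ 1 - q.t ≤ τ)

theorem min_add_le_iff (a b c d : ℝ) : min a b + c ≤ d ↔ a + c ≤ d ∨ b + c ≤ d := by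
  rw [← le_sub_iff_add_le, min_le_iff, le_sub_iff_add_le, le_sub_iff_add_le]

/-- description of the balls whose centre is at distance at most `1/2` from `p.u` -/
theorem mem_ball (p q : Pt n) (hp : p.t ≤ 1 / 2) : q ∈ ball p ↔
    near p.u (1 / 2 - p.t) q ∨ onE p.u p.v (p.t + 1 / 2) q ∨ near p.v (p.t - 1 / 2) q := by
  have ht0 := q.t0
  have ht1 := q.t1
  have hs0 := p.t0
  have hne := q.ne
  have hpne := p.ne
  simp only [ball, Set.mem_ofPred_eq, dP, dV, dK, near, onE]
  by_cases e1 : p.u = q.u
  · by_cases e4 : p.v = q.v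
    · -- same orientation
      simp only [e1, e4, true_and, and_true, if_true, hne, hne.symm, false_and, or_false,
        false_or, abs_le]
      constructor
      · rintro ⟨ha, hb⟩
        exact Or.inr (Or.inl (by linarith))
      · rintro (h | h | h) <;> constructor <;> linarith
    · have e3 : ¬ p.v = q.u := fun h => hpne (by rw [h, e1])
      have e2 : ¬ p.u = q.v := fun h => hne (by rw [← e1, h])
      have e3' : ¬ q.u = p.v := fun h => e3 h.symm
      have e4' : ¬ q.v = p.v := fun h => e4 h.symm
      simp only [e1, e3, e4, e3', e4', hne, hne.symm, and_false, false_and, true_and, if_false,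
        if_true, or_false, min_le_iff, min_add_le_iff]
      constructor
      · rintro ((h | h) | (h | h)) <;> linarith
      · intro h
        left; left; linarith
  · by_cases e2 : p.u = q.v
    · by_cases e3 : p.v = q.u
      · -- reversed
        simp only [e2, e3, hne, hne.symm, true_and, and_true, if_true, if_false,
          false_and, or_false, false_or, abs_le]
        constructor
        · rintro ⟨ha, hb⟩
          exact Or.inr (Or.inl (by linarith))
        · rintro (h | h | h) <;> constructor <;> linarith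
      · have e4 : ¬ p.v = q.v := fun h => hpne (by rw [e2, h])
        have e3' : ¬ q.u = p.v := fun h => e3 h.symm
        have e4' : ¬ q.v = p.v := fun h => e4 h.symm
        simp only [e2, e3, e4, e3', e4', hne, hne.symm, and_false, false_and, true_and, if_false,
          if_true, or_false, false_or, min_le_iff, min_add_le_iff]
        constructor
        · rintro ((h | h) | (h | h)) <;> linarith
        · intro h
          right; left; linarith
    · have e1' : ¬ q.u = p.u := fun h => e1 h.symm
      have e2' : ¬ q.v = p.u := fun h => e2 h.symm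
      simp only [e1, e2, e1', e2', and_false, false_and, if_false, false_or, min_le_iff,
        min_add_le_iff]
      by_cases e3 : p.v = q.u
      · simp only [e3, hne, hne.symm, true_and, false_and, or_false, if_true, if_false]
        constructor
        · rintro ((h | h) | (h | h)) <;> linarith
        · intro h
          left; right; linarith
      · by_cases e4 : p.v = q.v
        · simp only [e4, hne, hne.symm, true_and, false_and, false_or, if_true, if_false]
          constructor
          · rintro ((h | h) | (h | h)) <;> linarith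
          · intro h
            right; right; linarith
        · have e3' : ¬ q.u = p.v := fun h => e3 h.symm
          have e4' : ¬ q.v = p.v := fun h => e4 h.symm
          simp only [e3, e4, e3', e4', false_and, or_self, if_false, iff_false]
          rintro ((h | h) | (h | h)) <;> linarith

/-- the same point, with the other orientation of its edge -/
def Pt.swap (p : Pt n) : Pt n := ⟨p.v, p.u, p.ne.symm, 1 - p.t, by linarith [p.t1], by linarith [p.t0]⟩

theorem ball_swap (p : Pt n) : ball p.swap = ball p := by
  ext q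
  simp only [ball, Set.mem_ofPred_eq, dP, Pt.swap]
  have hd : ∀ w, dV p.swap w = dV p w := by
    intro w
    simp only [dV, Pt.swap, sub_sub_cancel]
    exact min_comm _ _
  have hd' : ∀ w, dV (⟨p.v, p.u, p.ne.symm, 1 - p.t, by linarith [p.t1], by linarith [p.t0]⟩ : Pt n) w
      = dV p w := hd
  rw [hd', hd']
  have a1 : |1 - p.t - q.t| = |p.t - (1 - q.t)| := by
    rw [← abs_neg]; congr 1; ring
  have a2 : |1 - p.t - (1 - q.t)| = |p.t - q.t| := by
    rw [← abs_neg]; congr 1; ring
  rw [a1, a2]
  by_cases h1 : p.u = q.u ∧ p.v = q.v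
  · have h2 : ¬ (p.v = q.u ∧ p.u = q.v) := fun h => q.ne (by rw [← h1.1, h.2])
    rw [if_neg h2, if_pos ⟨h1.2, h1.1⟩, if_pos h1]
  · by_cases h2 : p.u = q.v ∧ p.v = q.u
    · rw [if_pos ⟨h2.2, h2.1⟩, if_neg h1, if_pos h2]
    · rw [if_neg (fun h => h2 ⟨h.2, h.1⟩), if_neg (fun h => h1 ⟨h.2, h.1⟩), if_neg h1, if_neg h2]

/-! ### The lower bound -/

theorem self_mem (p : Pt n) (hp : p.t ≤ 1 / 2) (v : Fin n) (h : p.u ≠ v) :
    (⟨p.u, v, h, 0, le_rfl, zero_le_one⟩ : Pt n) ∈ ball p := by
  rw [mem_ball p _ hp]
  left; left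
  exact ⟨rfl, by simp only; linarith⟩

/-- far point of the ball on its own edge -/
theorem far_mem (p : Pt n) (hp : p.t ≤ 1 / 2) :
    (⟨p.u, p.v, p.ne, p.t + 1 / 2, by linarith [p.t0], by linarith⟩ : Pt n) ∈ ball p := by
  rw [mem_ball p _ hp]
  right; left; left
  exact ⟨rfl, rfl, le_rfl⟩

theorem ball_le (p p' : Pt n) (hp : p.t ≤ 1 / 2) (hp' : p'.t ≤ 1 / 2) (h0 : 0 < p.t)
    (hu : p.u = p'.u) (h : ball p = ball p') : p.v = p'.v ∧ p.t ≤ p'.t := by
  have hz := far_mem p hp
  rw [h, mem_ball p' _ hp'] at hz
  have hne := p.ne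
  have hne' := p'.ne
  have ht' := p'.t0
  rcases hz with (⟨_, h1⟩ | ⟨h1, _⟩) | (⟨_, h1, h2⟩ | ⟨h1, _, _⟩) | (⟨h1, _⟩ | ⟨h1, h2⟩)
  · simp only at h1; linarith
  · exact absurd (hu.trans h1.symm) hne
  · exact ⟨h1, by simp only at h2; linarith⟩
  · exact absurd (hu.symm.trans h1) hne'
  · exact absurd (hu.symm.trans h1) hne'
  · exact ⟨h1, by simp only at h2; linarith⟩

theorem ball_inj (p p' : Pt n) (hp : p.t ≤ 1 / 2) (hp' : p'.t ≤ 1 / 2) (h0 : 0 < p.t)
    (h0' : 0 < p'.t) (hu : p.u = p'.u) (h : ball p = ball p') : p = p' := by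
  have h1 := ball_le p p' hp hp' h0 hu h
  have h2 := ball_le p' p hp' hp h0' hu.symm h.symm
  exact Pt.ext hu h1.1 (le_antisymm h1.2 h2.2)

section lower

variable {c : ℕ} (S : Set (Set (Pt n))) (f : Set (Pt n) → Fin c)

/-- colour classes are disjoint families -/
def Proper (S : Set (Set (Pt n))) (f : Set (Pt n) → Fin c) : Prop :=
  ∀ B ∈ S, ∀ B' ∈ S, B ≠ B' → (B ∩ B').Nonempty → f B ≠ f B'

/-- every point lies in a ball of `S`, given by a normalised centre -/
def Covers (S : Set (Set (Pt n))) : Prop :=
  ∀ q : Pt n, ∃ p : Pt n, p.t ≤ 1 / 2 ∧ ball p ∈ S ∧ q ∈ ball p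

variable {S f}

theorem same_u (hS : Proper S f) {p p' : Pt n} (hp : p.t ≤ 1 / 2) (hp' : p'.t ≤ 1 / 2)
    (hm : ball p ∈ S) (hm' : ball p' ∈ S) (hu : p.u = p'.u) (hf : f (ball p) = f (ball p')) :
    ball p = ball p' := by
  by_contra hne
  refine hS _ hm _ hm' hne ⟨⟨p.u, p.v, p.ne, 0, le_rfl, zero_le_one⟩, self_mem p hp _ p.ne, ?_⟩ hf
  rw [mem_ball p' _ hp']
  left; left
  exact ⟨hu, by simp only; linarith⟩

/-- the vertices which are centres of balls -/
def VA (S : Set (Set (Pt n))) : Set (Fin n) := {v | ∃ p : Pt n, p.u = v ∧ p.t = 0 ∧ ball p ∈ S}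

/-- every edge not inside `VA` carries an interior centre -/
theorem exists_centre (hS : Proper S f) (hC : Covers S) (u v : Fin n) (huv : u ≠ v)
    (hu : u ∉ VA S) : ∃ p : Pt n, p.t ≤ 1 / 2 ∧ 0 < p.t ∧ ball p ∈ S ∧
      ((p.u = u ∧ p.v = v) ∨ (p.u = v ∧ p.v = u)) := by
  by_contra hno
  push Not at hno
  -- parameters of the balls around `u`
  let T : Set ℝ := {t | ∃ p : Pt n, p.t = t ∧ p.t ≤ 1 / 2 ∧ 0 < p.t ∧ ball p ∈ S ∧ p.u = u}
  have hT : T.Finite := by
    have hinj : Function.Injective (fun t : T => f (ball t.2.choose)) := by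
      intro t t' he
      have h := t.2.choose_spec
      have h' := t'.2.choose_spec
      have hb := same_u hS h.2.1 h'.2.1 h.2.2.2.1 h'.2.2.2.1 (h.2.2.2.2.trans h'.2.2.2.2.symm) he
      have := ball_inj _ _ h.2.1 h'.2.1 h.2.2.1 h'.2.2.1 (h.2.2.2.2.trans h'.2.2.2.2.symm) hb
      apply Subtype.ext
      rw [← h.1, ← h'.1, this]
    exact Set.finite_coe_iff.1 (Finite.of_injective _ hinj)
  have key : ∀ s : ℝ, 0 < s → s < 1 / 2 → ∃ t ∈ T, t ≤ 1 / 2 - s := by
    intro s hs0 hs1
    obtain ⟨p, hp, hm, hq⟩ := hC ⟨u, v, huv, s, hs0.le, by linarith⟩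
    have hp0 := p.t0
    have hpos : p.u = u → 0 < p.t := by
      intro h
      rcases hp0.lt_or_eq with h0 | h0
      · exact h0
      · exact absurd ⟨p, h, h0.symm, hm⟩ hu
    rw [mem_ball p _ hp] at hq
    rcases hq with (⟨h1, h2⟩ | ⟨h1, h2⟩) | (⟨h1, h2, h3⟩ | ⟨h1, h2, h3⟩) | (⟨h1, h2⟩ | ⟨h1, h2⟩)
    · exact ⟨p.t, ⟨p, rfl, hp, hpos h1.symm, hm, h1.symm⟩, by simp only at h2; linarith⟩
    · simp only at h2; linarith
    · exact absurd h2.symm (hno p hp (hpos h1.symm) hm |>.1 h1.symm)
    · simp only at h1 h2 h3
      rcases hp0.lt_or_eq with h0 | h0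
      · exact absurd h1.symm (hno p hp h0 hm |>.2 h2.symm)
      · linarith
    · simp only at h2; linarith
    · simp only at h2; linarith
  obtain ⟨t0, ht0, _⟩ := key (1 / 4) (by norm_num) (by norm_num)
  obtain ⟨m, hm, hmin⟩ := hT.exists_minimal ⟨t0, ht0⟩
  obtain ⟨p, hpm, hp2, hp0, _⟩ := hm
  obtain ⟨t, ht, htle⟩ := key (1 / 2 - m / 2) (by linarith) (by linarith)
  have := hmin ht (by linarith)
  linarith

/-- version for an edge not inside `VA` -/
theorem exists_centre' (hS : Proper S f) (hC : Covers S) (u v : Fin n) (huv : u ≠ v)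
    (hu : ¬ (u ∈ VA S ∧ v ∈ VA S)) : ∃ p : Pt n, p.t ≤ 1 / 2 ∧ 0 < p.t ∧ ball p ∈ S ∧
      ((p.u = u ∧ p.v = v) ∨ (p.u = v ∧ p.v = u)) := by
  by_cases h : u ∈ VA S
  · have hv : v ∉ VA S := fun h' => hu ⟨h, h'⟩
    obtain ⟨p, h1, h2, h3, h4⟩ := exists_centre hS hC v u huv.symm hv
    exact ⟨p, h1, h2, h3, h4.symm⟩
  · exact exists_centre hS hC u v huv h

/-- if the edge of the centre `p` (at distance `t` from `p.u`) ends at `w`, and another ball of the
same colour is centred at distance at most `t` from `w`, near `w`, then both balls agree and the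
second one is centred on the same edge -/
theorem other_end (hS : Proper S f) {p p' : Pt n} (hp : p.t ≤ 1 / 2) (hp' : p'.t ≤ 1 / 2)
    (hm : ball p ∈ S) (hm' : ball p' ∈ S) (hw : p'.u = p.v) (hle : p'.t ≤ p.t)
    (hf : f (ball p) = f (ball p')) (h0 : 0 < p.t) : p'.v = p.u ∧ 0 < p'.t := by
  have hne := p.ne
  have hne' := p'.ne
  have heq : ball p = ball p' := by
    by_contra hneq
    refine hS _ hm _ hm' hneq ⟨_, far_mem p hp, ?_⟩ hf
    rw [mem_ball p' _ hp']
    left; right
    exact ⟨hw.symm, by simp only; linarith⟩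
  have hx := self_mem p hp _ p.ne
  rw [heq, mem_ball p' _ hp'] at hx
  have ht' := p'.t0
  rcases hx with (⟨h1, _⟩ | ⟨_, h2⟩) | (⟨h1, _, _⟩ | ⟨h1, h2, h3⟩) | (⟨h1, h2⟩ | ⟨h1, _⟩)
  · exact absurd (h1.trans hw) hne
  · simp only at h2; linarith
  · exact absurd (h1.trans hw) hne
  · simp only at h1 h3
    exact ⟨h1.symm, by linarith⟩
  · simp only at h1 h2
    exact ⟨h1.symm, by linarith⟩
  · exact absurd (hw.trans h1) hne'

theorem two_card_lt {m : ℕ} (s : Finset (Fin m)) :
    2 * ((s ×ˢ s).filter fun p => p.1 < p.2).card = s.card * (s.card - 1) := by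
  have h1 : ((s ×ˢ s).filter fun p => p.2 < p.1).card = ((s ×ˢ s).filter fun p => p.1 < p.2).card := by
    apply Finset.card_bij (fun p _ => (p.2, p.1))
    · intro p hp
      simp only [Finset.mem_filter, Finset.mem_product] at hp ⊢
      tauto
    · intro p _ q _ h
      simp only [Prod.mk.injEq] at h
      exact Prod.ext h.2 h.1
    · intro p hp
      simp only [Finset.mem_filter, Finset.mem_product] at hp
      exact ⟨(p.2, p.1), by simp only [Finset.mem_filter, Finset.mem_product]; tauto, rfl⟩
  have h2 : s.offDiag = ((s ×ˢ s).filter fun p => p.1 < p.2) ∪ ((s ×ˢ s).filter fun p => p.2 < p.1) := by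
    ext p
    simp only [Finset.mem_offDiag, Finset.mem_union, Finset.mem_filter, Finset.mem_product]
    constructor
    · rintro ⟨ha, hb, hne⟩
      rcases lt_or_gt_of_ne hne with h | h
      · exact Or.inl ⟨⟨ha, hb⟩, h⟩
      · exact Or.inr ⟨⟨ha, hb⟩, h⟩
    · rintro (⟨⟨ha, hb⟩, h⟩ | ⟨⟨ha, hb⟩, h⟩)
      · exact ⟨ha, hb, h.ne⟩
      · exact ⟨ha, hb, h.ne'⟩
  have h3 : Disjoint ((s ×ˢ s).filter fun p => p.1 < p.2) ((s ×ˢ s).filter fun p => p.2 < p.1) := by
    rw [Finset.disjoint_left]
    intro p hp hq
    simp only [Finset.mem_filter] at hp hq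
    exact lt_asymm hp.2 hq.2
  have h4 := Finset.offDiag_card s
  rw [h2, Finset.card_union_of_disjoint h3, h1] at h4
  rw [two_mul, h4, Nat.mul_sub, mul_one]

open Classical in
theorem lower_count (hn : 1 ≤ n) (hS : Proper S f) (hC : Covers S) :
    ∃ a ≤ c, n * (n - 1) + 2 * a + 2 * c ≤ 2 * c * n + a * (a - 1) := by
  let A : Finset (Fin n) := Finset.univ.filter fun v => v ∈ VA S
  have hA : ∀ v, v ∈ A ↔ v ∈ VA S := fun v => by simp [A]
  -- the vertex balls and their colours
  choose q0 hq0 using fun v : A => (hA v).1 v.2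
  let κ : A → Fin c := fun v => f (ball (q0 v))
  have hκ : Function.Injective κ := by
    intro v w hvw
    by_contra hne
    have hne' : (v : Fin n) ≠ w := fun h => hne (Subtype.ext h)
    have h1 := hq0 v
    have h2 := hq0 w
    have hle1 : (q0 v).t ≤ 1 / 2 := by rw [h1.2.1]; norm_num
    have hle2 : (q0 w).t ≤ 1 / 2 := by rw [h2.2.1]; norm_num
    have heq : ball (q0 v) = ball (q0 w) := by
      by_contra hneq
      refine hS _ h1.2.2 _ h2.2.2 hneq
        ⟨(⟨v, w, hne', 1 / 2, by norm_num, by norm_num⟩ : Pt n), ?_, ?_⟩ hvw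
      · rw [mem_ball _ _ hle1, h1.1, h1.2.1]
        left; left
        exact ⟨rfl, by norm_num⟩
      · rw [mem_ball _ _ hle2, h2.1, h2.2.1]
        left; right
        exact ⟨rfl, by norm_num⟩
    have hx := self_mem (q0 v) hle1 _ (q0 v).ne
    rw [heq, mem_ball _ _ hle2, h2.1, h2.2.1] at hx
    rcases hx with (⟨h3, _⟩ | ⟨_, h4⟩) | (⟨h3, _, _⟩ | ⟨_, _, h4⟩) | (⟨_, h4⟩ | ⟨_, h4⟩)
    · exact hne' (h1.1.symm.trans h3)
    · norm_num at h4
    · exact hne' (h1.1.symm.trans h3)
    · norm_num at h4
    · norm_num at h4
    · norm_num at h4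
  have hac : A.card ≤ c := by
    have := Fintype.card_le_of_injective κ hκ
    rwa [Fintype.card_coe, Fintype.card_fin] at this
  -- the edges
  let E : Finset (Fin n × Fin n) := Finset.univ.filter fun e =>
    e.1 < e.2 ∧ ¬ (e.1 ∈ VA S ∧ e.2 ∈ VA S)
  have hE : ∀ e : E, (e : Fin n × Fin n).1 < (e : Fin n × Fin n).2 ∧
      ¬ ((e : Fin n × Fin n).1 ∈ VA S ∧ (e : Fin n × Fin n).2 ∈ VA S) := fun e => by
    have := e.2
    simpa only [E, Finset.mem_filter, Finset.mem_univ, true_and] using this
  choose P hP1 hP0 hPS hPe using fun e : E =>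
    exists_centre' hS hC (e : Fin n × Fin n).1 (e : Fin n × Fin n).2 (hE e).1.ne (hE e).2
  have hPinj : ∀ e e' : E, ((P e).u = (P e').u ∧ (P e).v = (P e').v) ∨
      ((P e).u = (P e').v ∧ (P e).v = (P e').u) → e = e' := by
    intro e e' h
    have h1 := (hE e).1
    have h2 := (hE e').1
    have h3 := hPe e
    have h4 := hPe e'
    apply Subtype.ext
    apply Prod.ext
    · rcases h with ⟨ha, hb⟩ | ⟨ha, hb⟩ <;> rcases h3 with ⟨hc, hd⟩ | ⟨hc, hd⟩ <;>
        rcases h4 with ⟨he, hf⟩ | ⟨he, hf⟩ <;> omega
    · rcases h with ⟨ha, hb⟩ | ⟨ha, hb⟩ <;> rcases h3 with ⟨hc, hd⟩ | ⟨hc, hd⟩ <;>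
        rcases h4 with ⟨he, hf⟩ | ⟨he, hf⟩ <;> omega
  -- edges by colour
  let EC : Fin c → Finset E := fun i => Finset.univ.filter fun e => f (ball (P e)) = i
  have hEC : ∀ i (e : E), e ∈ EC i ↔ f (ball (P e)) = i := fun i e => by simp [EC]
  have hinj : ∀ i, Set.InjOn (fun e : E => (P e).u) (EC i) := by
    intro i e he e' he' hu
    have h1 := (hEC i e).1 he
    have h2 := (hEC i e').1 he'
    have hb := same_u hS (hP1 e) (hP1 e') (hPS e) (hPS e') hu (h1.trans h2.symm)
    have := ball_inj _ _ (hP1 e) (hP1 e') (hP0 e) (hP0 e') hu hb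
    exact hPinj e e' (Or.inl ⟨by rw [this], by rw [this]⟩)
  have hcard : ∀ i, (EC i).card + (1 + if i ∈ Finset.univ.image κ then 1 else 0) ≤ n := by
    intro i
    have himg : (EC i).card = ((EC i).image fun e : E => (P e).u).card :=
      (Finset.card_image_of_injOn (hinj i)).symm
    -- the centre vertex of colour `i`
    have hv0 : ∀ v : A, κ v = i → (v : Fin n) ∉ (EC i).image fun e : E => (P e).u := by
      intro v hv hmem
      obtain ⟨e, he, heu⟩ := Finset.mem_image.1 hmem
      have h1 := hq0 v
      have hle1 : (q0 v).t ≤ 1 / 2 := by rw [h1.2.1]; norm_num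
      have hb := same_u hS (hP1 e) hle1 (hPS e) h1.2.2 (heu.trans h1.1.symm)
        (((hEC i e).1 he).trans hv.symm)
      have := ball_le _ _ (hP1 e) hle1 (hP0 e) (heu.trans h1.1.symm) hb
      have h2 := hP0 e
      rw [h1.2.1] at this
      linarith [this.2]
    rcases (EC i).eq_empty_or_nonempty with hemp | hne
    · rw [hemp, Finset.card_empty]
      split_ifs with hi
      · obtain ⟨v, _, _⟩ := Finset.mem_image.1 hi
        have h1 := (q0 v).ne
        have h2 := (q0 v).u.2
        have h3 := (q0 v).v.2
        by_contra hlt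
        apply h1
        apply Fin.ext
        omega
      · omega
    · obtain ⟨e, he, hmax⟩ := Finset.exists_max_image (EC i) (fun e : E => (P e).t) hne
      have hw : (P e).v ∉ (EC i).image fun e : E => (P e).u := by
        intro hmem
        obtain ⟨e', he', heu⟩ := Finset.mem_image.1 hmem
        have h1 := other_end hS (hP1 e) (hP1 e') (hPS e) (hPS e') heu (hmax e' he')
          (((hEC i e).1 he).trans ((hEC i e').1 he').symm) (hP0 e)
        have := hPinj e e' (Or.inr ⟨h1.1.symm, heu.symm⟩)
        subst this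
        exact (P e).ne heu
      rw [himg]
      by_cases hi : i ∈ Finset.univ.image κ
      · rw [if_pos hi]
        obtain ⟨v, _, hv⟩ := Finset.mem_image.1 hi
        have hwv : (P e).v ≠ (v : Fin n) := by
          intro h
          have h1 := hq0 v
          have hle1 : (q0 v).t ≤ 1 / 2 := by rw [h1.2.1]; norm_num
          have := other_end hS (hP1 e) hle1 (hPS e) h1.2.2 (h1.1.trans h.symm)
            (by rw [h1.2.1]; exact (hP0 e).le) (((hEC i e).1 he).trans hv.symm) (hP0 e)
          rw [h1.2.1] at this
          exact lt_irrefl _ this.2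
        have hsub : ((EC i).image fun e : E => (P e).u) ⊆ (Finset.univ.erase (P e).v).erase v := by
          intro x hx
          rw [Finset.mem_erase, Finset.mem_erase]
          exact ⟨fun h => hv0 v hv (h ▸ hx), fun h => hw (h ▸ hx), Finset.mem_univ _⟩
        have := Finset.card_le_card hsub
        rw [Finset.card_erase_of_mem (Finset.mem_erase.2 ⟨hwv.symm, Finset.mem_univ _⟩),
          Finset.card_erase_of_mem (Finset.mem_univ _), Finset.card_univ, Fintype.card_fin] at this
        have h2 : 2 ≤ n := by
          by_contra hlt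
          apply (P e).ne
          apply Fin.ext
          have := (P e).u.2
          have := (P e).v.2
          omega
        omega
      · rw [if_neg hi]
        have hsub : ((EC i).image fun e : E => (P e).u) ⊆ Finset.univ.erase (P e).v := by
          intro x hx
          rw [Finset.mem_erase]
          exact ⟨fun h => hw (h ▸ hx), Finset.mem_univ _⟩
        have := Finset.card_le_card hsub
        rw [Finset.card_erase_of_mem (Finset.mem_univ _), Finset.card_univ, Fintype.card_fin] at this
        omega
  -- summation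
  have hsum : ∑ i : Fin c, (EC i).card = E.card := by
    have := Finset.card_eq_sum_card_fiberwise (f := fun e : E => f (ball (P e)))
      (s := (Finset.univ : Finset E)) (t := (Finset.univ : Finset (Fin c)))
      (fun _ _ => Finset.mem_coe.2 (Finset.mem_univ _))
    rw [Finset.card_univ, Fintype.card_coe] at this
    exact this.symm
  have hsum2 : ∑ i : Fin c, (if i ∈ Finset.univ.image κ then 1 else 0) = A.card := by
    rw [← Finset.card_filter, Finset.filter_mem_eq_inter, Finset.univ_inter,
      Finset.card_image_of_injective _ hκ, Finset.card_univ, Fintype.card_coe]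
  have htot : E.card + (c + A.card) ≤ c * n := by
    have := Finset.sum_le_sum fun i (_ : i ∈ (Finset.univ : Finset (Fin c))) => hcard i
    rw [Finset.sum_add_distrib, Finset.sum_add_distrib, hsum, hsum2, Finset.sum_const,
      Finset.sum_const, Finset.card_univ, Fintype.card_fin, smul_eq_mul, smul_eq_mul, mul_one] at this
    exact this
  -- counting the edges
  have hEc : E.card + ((A ×ˢ A).filter fun p => p.1 < p.2).card =
      ((Finset.univ ×ˢ Finset.univ : Finset (Fin n × Fin n)).filter fun p => p.1 < p.2).card := by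
    rw [← Finset.card_union_of_disjoint]
    · congr 1
      ext p
      simp only [E, A, Finset.mem_union, Finset.mem_filter, Finset.mem_univ, true_and,
        Finset.mem_product]
      tauto
    · rw [Finset.disjoint_left]
      intro p hp hq
      simp only [E, A, Finset.mem_filter, Finset.mem_univ, true_and, Finset.mem_product] at hp hq
      exact hp.2 hq.1
  have hA2 := two_card_lt A
  have hU2 := two_card_lt (Finset.univ : Finset (Fin n))
  rw [Finset.card_univ, Fintype.card_fin] at hU2
  refine ⟨A.card, hac, ?_⟩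
  have h5 : 2 * c * n = 2 * (c * n) := by ring
  rw [h5]
  omega

end lower

/-- the lower bound: a counting condition for `(1/2, c)`-colourability -/
theorem lower {c : ℕ} (hn : 1 ≤ n) (h : Colourable n c) :
    ∃ a ≤ c, n * (n - 1) + 2 * a + 2 * c ≤ 2 * c * n + a * (a - 1) := by
  obtain ⟨P, hcov, f, hf⟩ := h
  refine lower_count (S := ball '' P) (f := f) hn hf ?_
  intro q
  obtain ⟨p, hp, hq⟩ := hcov q
  rcases le_total p.t (1 / 2) with h | h
  · exact ⟨p, h, ⟨p, hp, rfl⟩, hq⟩
  · refine ⟨p.swap, ?_, ?_, ?_⟩
    · show 1 - p.t ≤ 1 / 2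
      linarith
    · rw [ball_swap]; exact ⟨p, hp, rfl⟩
    · rw [ball_swap]; exact hq

/-! ### The upper bound from a decomposition into rooted forests -/

/-- Combinatorial data: `par i x = some w` means that the edge `xw` carries a ball of colour `i`
centred at distance `(h i x + 1)/40` from `x`, and `i < a` means that colour `i` has a ball centred
at the vertex `i`. -/
structure Data (n c a : ℕ) (par : Fin c → Fin n → Option (Fin n)) (h : Fin c → Fin n → ℕ) :
    Prop where
  h1 : ∀ i x w, par i x = some w → x ≠ w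
  h2 : ∀ i x w w', par i x = some w → par i w = some w' → h i x < h i w
  h3 : ∀ (i : Fin c) (v : Fin n), (i : ℕ) = v → (i : ℕ) < a →
    par i v = none ∧ ∀ x, par i x ≠ some v
  h4 : ∀ i x, h i x ≤ 18
  h5 : ∀ w : Fin n, (w : ℕ) < a ∨ ∃ j w', par j w = some w' ∧ h j w = 0
  h6 : ∀ u v : Fin n, u ≠ v → ((u : ℕ) < a ∧ (v : ℕ) < a) ∨
    ∃ i, par i u = some v ∨ par i v = some u

theorem colourable_of_data {n c a : ℕ} {par : Fin c → Fin n → Option (Fin n)}
    {h : Fin c → Fin n → ℕ} (hac : a ≤ c) (hc : 0 < c) (D : Data n c a par h) : Colourable n c := by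
  classical
  let y : Fin c → Fin n → ℝ := fun i x => ((h i x : ℝ) + 1) / 40
  have hy0 : ∀ i x, 1 / 40 ≤ y i x := by
    intro i x
    have : (0 : ℝ) ≤ h i x := Nat.cast_nonneg _
    simp only [y]
    linarith
  have hy1 : ∀ i x, y i x < 1 / 2 := by
    intro i x
    have : (h i x : ℝ) ≤ 18 := by exact_mod_cast D.h4 i x
    simp only [y]
    linarith
  have hyy : ∀ i x w, h i x < h i w → y i x < y i w := by
    intro i x w hlt
    have : (h i x : ℝ) < h i w := by exact_mod_cast hlt
    simp only [y]
    linarith
  -- centres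
  let PE : Fin c → Set (Pt n) := fun i => {p | par i p.u = some p.v ∧ p.t = y i p.u}
  let PV : Fin c → Set (Pt n) := fun i => {p | (i : ℕ) = p.u ∧ (i : ℕ) < a ∧ p.t = 0}
  have hdis : ∀ i, ∀ p ∈ PE i ∪ PV i, ∀ p' ∈ PE i ∪ PV i, ball p ≠ ball p' →
      ¬ (ball p ∩ ball p').Nonempty := by
    have key1 : ∀ i, ∀ p ∈ PE i, ∀ p' ∈ PE i, ball p ≠ ball p' → ¬ (ball p ∩ ball p').Nonempty := by
      rintro i p ⟨hp, hpt⟩ p' ⟨hp', hpt'⟩ hne ⟨q, hq, hq'⟩
      have hxx : p.u ≠ p'.u := by
        intro hu
        apply hne
        have hv : p.v = p'.v := by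
          have := hp.symm.trans ((congrArg (par i) hu).trans hp')
          exact Option.some.inj this
        rw [Pt.ext hu hv (by rw [hpt, hpt', hu])]
      have hy := hy0 i p.u
      have hy' := hy0 i p'.u
      have hz := hy1 i p.u
      have hz' := hy1 i p'.u
      rw [← hpt] at hy hz
      rw [← hpt'] at hy' hz'
      -- if one centre points to the other base vertex
      have hlt : p.v = p'.u → p.t < p'.t := by
        intro hv
        rw [hpt, hpt']
        apply hyy
        exact D.h2 i p.u p'.u p'.v (by rw [hp, hv]) hp'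
      have hlt' : p'.v = p.u → p'.t < p.t := by
        intro hv
        rw [hpt, hpt']
        apply hyy
        exact D.h2 i p'.u p.u p.v (by rw [hp', hv]) hp
      have hqn := q.ne
      have hq0 := q.t0
      have hq1 := q.t1
      rw [mem_ball p q (by linarith)] at hq
      rw [mem_ball p' q (by linarith)] at hq'
      rcases hq with (⟨a1, a2⟩ | ⟨a1, a2⟩) | (⟨a1, a2, a3⟩ | ⟨a1, a2, a3⟩) | (⟨a1, a2⟩ | ⟨a1, a2⟩) <;>
      rcases hq' with (⟨b1, b2⟩ | ⟨b1, b2⟩) | (⟨b1, b2, b3⟩ | ⟨b1, b2, b3⟩) | (⟨b1, b2⟩ | ⟨b1, b2⟩)
      all_goals first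
        | exact hxx (a1.symm.trans b1)
        | exact hxx (a2.symm.trans b2)
        | exact hxx (a1.symm.trans b2)
        | exact hxx (a2.symm.trans b1)
        | linarith
        | (have := hlt' (b1.symm.trans a1); linarith)
        | (have := hlt' (b2.symm.trans a1); linarith)
        | (have := hlt (a1.symm.trans b1); linarith)
        | (have := hlt (a2.symm.trans b1); linarith)
        | (have h1 := hlt (a2.symm.trans b2); have h2 := hlt' (b1.symm.trans a1); linarith)
        | (have h1 := hlt (a1.symm.trans b1); have h2 := hlt' (b2.symm.trans a2); linarith)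
    have key2 : ∀ i, ∀ p ∈ PE i, ∀ p' ∈ PV i, ¬ (ball p ∩ ball p').Nonempty := by
      rintro i p ⟨hp, hpt⟩ p' ⟨hp', hia, hpt'⟩ ⟨q, hq, hq'⟩
      have h3 := D.h3 i p'.u hp' hia
      have hu : p.u ≠ p'.u := by
        intro hu
        rw [hu, h3.1] at hp
        exact absurd hp (by simp)
      have hv : p.v ≠ p'.u := by
        intro hv
        exact h3.2 p.u (by rw [hp, hv])
      have hy := hy0 i p.u
      have hz := hy1 i p.u
      rw [← hpt] at hy hz
      have hqn := q.ne
      have hq0 := q.t0
      have hq1 := q.t1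
      rw [mem_ball p q (by linarith)] at hq
      rw [mem_ball p' q (by linarith)] at hq'
      rcases hq with (⟨a1, a2⟩ | ⟨a1, a2⟩) | (⟨a1, a2, a3⟩ | ⟨a1, a2, a3⟩) | (⟨a1, a2⟩ | ⟨a1, a2⟩) <;>
      rcases hq' with (⟨b1, b2⟩ | ⟨b1, b2⟩) | (⟨b1, b2, b3⟩ | ⟨b1, b2, b3⟩) | (⟨b1, b2⟩ | ⟨b1, b2⟩)
      all_goals first
        | exact hu (a1.symm.trans b1)
        | exact hv (a2.symm.trans b1)
        | exact hv (a1.symm.trans b1)
        | exact hu (a2.symm.trans b1)
        | exact hu (a1.symm.trans b2)
        | exact hv (a2.symm.trans b2)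
        | exact hv (a1.symm.trans b2)
        | exact hu (a2.symm.trans b2)
        | linarith
    have key3 : ∀ i, ∀ p ∈ PV i, ∀ p' ∈ PV i, ball p = ball p' := by
      rintro i p ⟨hp, hia, hpt⟩ p' ⟨hp', _, hpt'⟩
      have huu : p.u = p'.u := Fin.ext (hp.symm.trans hp')
      ext q
      have hq0 := q.t0
      have hq1 := q.t1
      rw [mem_ball p q (by rw [hpt]; norm_num), mem_ball p' q (by rw [hpt']; norm_num), hpt, hpt',
        huu]
      have e : ∀ w : Fin n, (near p'.u (1 / 2 - 0) q ∨ onE p'.u w (0 + 1 / 2) q ∨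
          near w (0 - 1 / 2) q) ↔ near p'.u (1 / 2) q := by
        intro w
        constructor
        · rintro ((⟨a1, a2⟩ | ⟨a1, a2⟩) | (⟨a1, a2, a3⟩ | ⟨a1, a2, a3⟩) | (⟨a1, a2⟩ | ⟨a1, a2⟩))
          · exact Or.inl ⟨a1, by linarith⟩
          · exact Or.inr ⟨a1, by linarith⟩
          · exact Or.inl ⟨a1, by linarith⟩
          · exact Or.inr ⟨a2, by linarith⟩
          · linarith
          · linarith
        · rintro (⟨a1, a2⟩ | ⟨a1, a2⟩)
          · exact Or.inl (Or.inl ⟨a1, by linarith⟩)
          · exact Or.inl (Or.inr ⟨a1, by linarith⟩)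
      rw [e, e]
    rintro i p (hp | hp) p' (hp' | hp') hne hnon
    · exact key1 i p hp p' hp' hne hnon
    · exact key2 i p hp p' hp' hnon
    · exact key2 i p' hp' p hp (by rwa [Set.inter_comm])
    · exact hne (key3 i p hp p' hp')
  -- covering
  have hnear : ∀ (q : Pt n) (w : Fin n), near w (1 / 2 - 1 / 40) q ∨ (near w (1 / 2) q ∧ (w : ℕ) < a) →
      (q.u = w ∨ q.v = w) → ∃ i, ∃ p ∈ PE i ∪ PV i, q ∈ ball p := by
    intro q w hq hqw
    have hother : ∃ v : Fin n, w ≠ v := by
      rcases hqw with h | h
      · exact ⟨q.v, by rw [← h]; exact q.ne⟩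
      · exact ⟨q.u, by rw [← h]; exact q.ne.symm⟩
    obtain ⟨v, hv⟩ := hother
    by_cases hwa : (w : ℕ) < a
    · refine ⟨⟨w, by omega⟩, ⟨w, v, hv, 0, le_rfl, zero_le_one⟩, Or.inr ⟨rfl, hwa, rfl⟩, ?_⟩
      rw [mem_ball _ _ (by norm_num)]
      left
      have : near w (1 / 2) q := by
        rcases hq with (⟨a1, a2⟩ | ⟨a1, a2⟩) | hq
        · exact Or.inl ⟨a1, by linarith⟩
        · exact Or.inr ⟨a1, by linarith⟩
        · exact hq.1
      simpa using this
    · rcases hq with hq | hq
      · rcases D.h5 w with h5 | ⟨j, w', hj, hj0⟩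
        · exact absurd h5 hwa
        · have hyj : y j w = 1 / 40 := by simp only [y, hj0]; norm_num
          refine ⟨j, ⟨w, w', D.h1 j w w' hj, y j w, by linarith [hy0 j w], by linarith [hy1 j w]⟩,
            Or.inl ⟨hj, rfl⟩, ?_⟩
          rw [mem_ball _ _ (hy1 j w).le]
          left
          simp only [hyj]
          exact hq
      · exact absurd hq.2 hwa
  have hcov : ∀ q : Pt n, ∃ i, ∃ p ∈ PE i ∪ PV i, q ∈ ball p := by
    intro q
    have hq0 := q.t0
    have hq1 := q.t1
    rcases D.h6 q.u q.v q.ne with ⟨h1, h2⟩ | ⟨i, hi | hi⟩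
    · rcases le_total q.t (1 / 2) with h | h
      · exact hnear q q.u (Or.inr ⟨Or.inl ⟨rfl, h⟩, h1⟩) (Or.inl rfl)
      · exact hnear q q.v (Or.inr ⟨Or.inr ⟨rfl, by linarith⟩, h2⟩) (Or.inr rfl)
    · by_cases h : q.t ≤ y i q.u + 1 / 2
      · refine ⟨i, ⟨q.u, q.v, q.ne, y i q.u, by linarith [hy0 i q.u], by linarith [hy1 i q.u]⟩,
          Or.inl ⟨hi, rfl⟩, ?_⟩
        rw [mem_ball _ _ (hy1 i q.u).le]
        right; left; left
        exact ⟨rfl, rfl, h⟩
      · push Not at h
        have := hy0 i q.u
        refine hnear q q.v (Or.inl (Or.inr ⟨rfl, by linarith⟩)) (Or.inr rfl)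
    · by_cases h : 1 - q.t ≤ y i q.v + 1 / 2
      · refine ⟨i, ⟨q.v, q.u, q.ne.symm, y i q.v, by linarith [hy0 i q.v], by linarith [hy1 i q.v]⟩,
          Or.inl ⟨hi, rfl⟩, ?_⟩
        rw [mem_ball _ _ (hy1 i q.v).le]
        right; left; right
        exact ⟨rfl, rfl, h⟩
      · push Not at h
        have := hy0 i q.v
        refine hnear q q.u (Or.inl (Or.inl ⟨rfl, by linarith⟩)) (Or.inl rfl)
  -- the colouring
  refine ⟨{p | ∃ i, p ∈ PE i ∪ PV i}, ?_, ?_⟩
  · intro q
    obtain ⟨i, p, hp, hq⟩ := hcov q
    exact ⟨p, ⟨i, hp⟩, hq⟩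
  · let f : Set (Pt n) → Fin c := fun B =>
      if hB : ∃ i, ∃ p ∈ PE i ∪ PV i, ball p = B then hB.choose else ⟨0, hc⟩
    refine ⟨f, ?_⟩
    rintro B ⟨p, ⟨i, hp⟩, rfl⟩ B' ⟨p', ⟨i', hp'⟩, rfl⟩ hne hnon hf
    have e1 : ∃ i, ∃ r ∈ PE i ∪ PV i, ball r = ball p := ⟨i, p, hp, rfl⟩
    have e2 : ∃ i, ∃ r ∈ PE i ∪ PV i, ball r = ball p' := ⟨i', p', hp', rfl⟩
    have hf1 : f (ball p) = e1.choose := dif_pos e1
    have hf2 : f (ball p') = e2.choose := dif_pos e2
    obtain ⟨r, hr, hrb⟩ := e1.choose_spec
    obtain ⟨r', hr', hrb'⟩ := e2.choose_spec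
    rw [← hf1] at hr
    rw [← hf2, ← hf] at hr'
    exact hdis _ r hr r' hr' (by rwa [hrb, hrb']) (by rwa [hrb, hrb'])

/-! ### Explicit decompositions -/

/-- parent function read off from base-32 digits (digits `≥ n` mean: no parent) -/
def dpar (n c N : ℕ) (i : Fin c) (x : Fin n) : Option (Fin n) :=
  if h : N / 32 ^ ((i : ℕ) * n + x) % 32 < n then some ⟨_, h⟩ else none

/-- heights read off from base-8 digits -/
def dh (n c M : ℕ) (i : Fin c) (x : Fin n) : ℕ := M / 8 ^ ((i : ℕ) * n + x) % 8

/-- boolean version of condition `h2` -/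
def chk2 {n c : ℕ} (par : Fin c → Fin n → Option (Fin n)) (h : Fin c → Fin n → ℕ) (i : Fin c)
    (x : Fin n) : Bool :=
  match par i x with
  | none => true
  | some w => match par i w with
    | none => true
    | some _ => decide (h i x < h i w)

theorem h2_of_chk {n c : ℕ} {par : Fin c → Fin n → Option (Fin n)} {h : Fin c → Fin n → ℕ}
    (hc : ∀ i x, chk2 par h i x = true) :
    ∀ i x w w', par i x = some w → par i w = some w' → h i x < h i w := by
  intro i x w w' e1 e2
  have := hc i x
  unfold chk2 at this
  rw [e1] at this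
  simp only [e2] at this
  exact of_decide_eq_true this

theorem chi_eq {n c : ℕ} (h : Colourable n c) (hn : 1 ≤ n)
    (hlow : ∀ c' < c, ∀ a ≤ c', ¬ (n * (n - 1) + 2 * a + 2 * c' ≤ 2 * c' * n + a * (a - 1))) :
    chi n = c := by
  apply le_antisymm (Nat.sInf_le h)
  by_contra hlt
  push Not at hlt
  have hne : {c | Colourable n c}.Nonempty := ⟨c, h⟩
  obtain ⟨a, ha, hle⟩ := lower hn (Nat.sInf_mem hne)
  exact hlow _ hlt a ha hle

theorem col11 : Colourable 11 5 := by
  refine colourable_of_data (a := 5) (par := dpar 11 5 6060621386079402404492776419580399489010297286564806438991072291843422376076551519)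
    (h := dh 11 5 7324111092390768516484729936824153722107109343960) le_rfl (by norm_num)
    ⟨?_, h2_of_chk ?_, ?_, ?_, ?_, ?_⟩ <;> decide +kernel

theorem col13 : Colourable 13 6 := by
  refine colourable_of_data (a := 6) (par := dpar 13 6 943289170086679612941508714997021638417680217125388759711853170260888871433561129792343821624390216439872216255307071)
    (h := dh 13 6 1175327863653084433855136315667191925833097216851837576760295936) le_rfl (by norm_num)
    ⟨?_, h2_of_chk ?_, ?_, ?_, ?_, ?_⟩ <;> decide +kernel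

theorem col15 : Colourable 15 7 := by
  refine colourable_of_data (a := 7) (par := dpar 15 7 14283642781659977164226538581955420315958742667583988083314990820383464559459041014745392462491142313249388203398681448644284056734499633178204419816519182687)
    (h := dh 15 7 355229528051568984262868520603505703932754313544063442432626088094347456800584912654920) le_rfl (by norm_num)
    ⟨?_, h2_of_chk ?_, ?_, ?_, ?_, ?_⟩ <;> decide +kernel

theorem col17 : Colourable 17 8 := by
  refine colourable_of_data (a := 8) (par := dpar 17 8 394285283141199433169513685266648880307989521991297994960131672816321237916029168277821661054108115884637152371162116755326918964203038394058005106839288182782759246110458131559975124803063704864712630783)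
    (h := dh 17 8 258227913407651542916344032052092505144526245729349040590382660570860042263692952955024078245691405203092485488223413338112) le_rfl (by norm_num)
    ⟨?_, h2_of_chk ?_, ?_, ?_, ?_, ?_⟩ <;> decide +kernel

theorem col18 : Colourable 18 8 := by
  refine colourable_of_data (a := 8) (par := dpar 18 8 441607073908236726802205310147534441953679128966660784177232088873710304521296991435008584399370885413514375408488040033984538012678806473942478942222237739292501466753769730740226375399489317590732381688946543116575)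
    (h := dh 18 8 2775763436054871827827472755436428787786373483126606850691365721792774484174583448767097124921779406166362137192228776875743293952) le_rfl (by norm_num)
    ⟨?_, h2_of_chk ?_, ?_, ?_, ?_, ?_⟩ <;> decide +kernel

theorem col19 : Colourable 19 9 := by
  refine colourable_of_data (a := 9) (par := dpar 19 9 76264099051513331493242032118617257286642552300003497725735682328766070518824349147920323818806020969823939348952514639844643504847794161798574654512625060356827546606152244645988075322193569954712698345791387315734324004635930688692076188863148052403664255)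
    (h := dh 19 9 14666645016233930788691587484401349009243850404200696358754076650061062274762022919340431437112937766776532204299857830951185938002118294257119377159913512) le_rfl (by norm_num)
    ⟨?_, h2_of_chk ?_, ?_, ?_, ?_, ?_⟩ <;> decide +kernel

theorem col20 : Colourable 20 9 := by
  refine colourable_of_data (a := 9) (par := dpar 20 9 8348807110089674199394687606896486569712776831840780609073809033205012618966079514566469880686386795675061592810377705257789968194810426617228508631903808093555268502133667683166950304514903471375734155680569122012319455149624508685505185904510288553663751373809174065151)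
    (h := dh 20 9 282419747106170092421666013807571242880364868185407613758159055584711698762580790440996070462228194433695747302163616639356350678920908721691259288721593362288832) le_rfl (by norm_num)
    ⟨?_, h2_of_chk ?_, ?_, ?_, ?_, ?_⟩ <;> decide +kernel

theorem col21 : Colourable 21 10 := by
  refine colourable_of_data (a := 10) (par := dpar 21 10 5142433754569479861791842457691759655035060134518991863283704142237823951043450071129500184469278723178920594273502043493105446762298860453424343051664463463797131744806071492262136149759058438439094356039758021063147767175045905092824925864020479884115496251701164116851974445247198565217861466433300569942322129535)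
    (h := dh 21 10 2854516194029725882953218612342022757313931847338191635352190145738307944429142322701665269639521566246698491408189549983446089663430525701846357498534449925271321748319087933371594536124488) le_rfl (by norm_num)
    ⟨?_, h2_of_chk ?_, ?_, ?_, ?_, ?_⟩ <;> decide +kernel

theorem col22 : Colourable 22 10 := by
  refine colourable_of_data (a := 10) (par := dpar 22 10 2409884486627787028767312376945790888155194034821007169585560683157793213629656198720181684556181445002919237329903517154068659483668410069702947995945760260205656682241261218590079912155105098215808264072371538269587343235386006298865486988173623447318372517860081922084286933962003786822584184266314933540850013327080624526865983)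
    (h := dh 22 10 1878137814175697969940800716741272599617976608645118979919208748801526066387761562783589113230785340451619199875600461439349719280734102961568926990340280584592129065510885511606590448912350845112840) le_rfl (by norm_num)
    ⟨?_, h2_of_chk ?_, ?_, ?_, ?_, ?_⟩ <;> decide +kernel

theorem col23 : Colourable 23 10 := by
  refine colourable_of_data (a := 10) (par := dpar 23 10 814553348762703179406431923490347220500212571306149156410130757837137979712714672618365461989295698529420246712710245916157459412179069540762528101907183764284686762974584166575338725321043179770943479536098057646319505168902734090550221668956966734528391974392983146404796570258489852267973056351936081319203371091219552273455946020742417198719)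
    (h := dh 23 10 652805901923964555855963536270197216941649778462129511364245459669331387627232710041831353760588954989255406577866889245836772852398866786936687118440941551053387252368535527519033922281685502830302487128096) le_rfl (by norm_num)
    ⟨?_, h2_of_chk ?_, ?_, ?_, ?_, ?_⟩ <;> decide +kernel

theorem col24 : Colourable 24 11 := by
  refine colourable_of_data (a := 11) (par := dpar 24 11 10019610640016098435587081848803880875367026467305239807762140926853675384376714906746482288099603935936264440726053942960968955851155973126697051937638967202190562347191833540044941798350252185682647289082790280991463140911183479153971067942909219340332693874201517350124880007393233951659332289264148027341132650895703919546901997106640621723932345475719396311233429303874894799839151012839796479)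
    (h := dh 24 11 4230276083041963512613525269532969115032637162748673349371062949637146554188808315270391073392624519839317433032669344403824160983465141726423270346246532138607675049709332636728047214101179719281749747953939707524771475653704) le_rfl (by norm_num)
    ⟨?_, h2_of_chk ?_, ?_, ?_, ?_, ?_⟩ <;> decide +kernel

theorem col25 : Colourable 25 11 := by
  refine colourable_of_data (a := 11) (par := dpar 25 11 67997049642605605485023646104184797314631019911954195914201349292428328306699861489927500819238831372765376038835795336178705838814739507326544719072321700994236174334262779701690025481198033547286466286584620807887134262627679024330661747170134167453174155102115107438443139069279749435188945096195334340612736495494491719714571107564647602696821060994475521349336863810411084355276610571959649199122220805902911)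
    (h := dh 25 11 84047419101764207030636963491028204900394899459278022248793813657312605778817856779760017750520353667599219226824806348989179919353183483488022027975909529276349945218321688761419554953066412132841010107545323238317772236023896012842497988381413392) le_rfl (by norm_num)
    ⟨?_, h2_of_chk ?_, ?_, ?_, ?_, ?_⟩ <;> decide +kernel

/-- Main result. (1) A necessary condition for `(1/2, c)`-colourability of `Γ(K_n)`, for all `n ≥ 2`.
(2) `2 n² ≤ (n + c)² + n` for every `(1/2, c)`-colouring. (3) For `2 ≤ n ≤ 10` and `n = 12, 14, 16`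
at least `⌈n/2⌉` colours are needed. (4) Exact values, all smaller than `⌈n/2⌉`. -/
theorem result :
    (∀ n c : ℕ, 2 ≤ n → Colourable n c →
      ∃ a ≤ c, n * (n - 1) + 2 * a + 2 * c ≤ 2 * c * n + a * (a - 1)) ∧
    (∀ n c : ℕ, 2 ≤ n → Colourable n c → 2 * n ^ 2 ≤ (n + c) ^ 2 + n) ∧
    (∀ n c : ℕ, 2 ≤ n → n ≤ 10 ∨ n = 12 ∨ n = 14 ∨ n = 16 → Colourable n c → n ≤ 2 * c) ∧
    chi 11 = 5 ∧ chi 13 = 6 ∧ chi 15 = 7 ∧ chi 17 = 8 ∧ chi 18 = 8 ∧ chi 19 = 9 ∧ chi 20 = 9 ∧ chi 21 = 10 ∧ chi 22 = 10 ∧ chi 23 = 10 ∧ chi 24 = 11 ∧ chi 25 = 11 ∧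
    ¬ (∀ n : ℕ, 2 ≤ n → chi n = (n + 1) / 2) := by
  have h11 : chi 11 = 5 := chi_eq col11 (by norm_num) (by decide)
  refine ⟨fun n c hn h => lower (by omega) h, ?_, ?_, h11, chi_eq col13 (by norm_num) (by decide), chi_eq col15 (by norm_num) (by decide), chi_eq col17 (by norm_num) (by decide), chi_eq col18 (by norm_num) (by decide), chi_eq col19 (by norm_num) (by decide), chi_eq col20 (by norm_num) (by decide), chi_eq col21 (by norm_num) (by decide), chi_eq col22 (by norm_num) (by decide), chi_eq col23 (by norm_num) (by decide), chi_eq col24 (by norm_num) (by decide), chi_eq col25 (by norm_num) (by decide),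
    fun h => ?_⟩
  · intro n c hn h
    obtain ⟨a, ha, hle⟩ := lower (by omega) h
    obtain ⟨m, rfl⟩ : ∃ m, n = m + 1 := ⟨n - 1, by omega⟩
    rw [Nat.add_sub_cancel] at hle
    have h1 : a * (a - 1) ≤ c * c := Nat.mul_le_mul ha (by omega)
    nlinarith
  · intro n c hn2 hn h
    obtain ⟨a, ha, hle⟩ := lower (by omega) h
    by_contra hlt
    push Not at hlt
    have hc : c ≤ 7 := by omega
    have ha7 : a ≤ 7 := by omega
    have hn16 : n ≤ 16 := by omega
    have key : ∀ (n : Fin 17) (c : Fin 8) (a : Fin 8),
        2 ≤ (n : ℕ) →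
        ((n : ℕ) ≤ 10 ∨ (n : ℕ) = 12 ∨ (n : ℕ) = 14 ∨ (n : ℕ) = 16) → 2 * (c : ℕ) < n →
        (a : ℕ) ≤ c →
        ¬ ((n : ℕ) * (n - 1) + 2 * a + 2 * c ≤ 2 * c * n + (a : ℕ) * (a - 1)) := by
      decide +kernel
    exact key ⟨n, by omega⟩ ⟨c, by omega⟩ ⟨a, by omega⟩ hn2 hn hlt ha hle
  · have := h 11 (by norm_num)
    rw [h11] at this
    norm_num at this

end Pool.Agent.Results.MP_4befb3_co.HalfChromatic
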